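import Pool.Agent.L0h87.CL2.Final

/-!
# MP_3fc7b1_an, Q2: every AW*-algebra is a clean ring

`IsAWStar A` (Kaplansky's two conditions) is defined in `Pool.Agent.R456.CL.Defs`.
No condition on the type or the center, and no countable decomposability, is assumed.
-/

set_option autoImplicit false

namespace Pool.Agent.Results.MP_3fc7b1_an.AWStarAlgebrasClean

open Pool.Agent.R456.CL Pool.Agent.L0h87.CL2

universe u

/-- Every AW*-algebra is clean: each element is the sum of a unit and an idempotent. -/
theorem result (A : Type u) [CStarAlgebra A] (hAW : IsAWStar A) (x : A) :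
    ∃ (v : Aˣ) (e : A), e * e = e ∧ x = (v : A) + e := by
  have hsa : PSa A := sa456_ok A hAW
  obtain ⟨P, _, _, hPP, h1, h2, y, h3, h4, h5, h6⟩ := clean_all hsa hAW x
  exact ⟨⟨x - P, y, h6, h5⟩, P, hPP, by simp⟩

end Pool.Agent.Results.MP_3fc7b1_an.AWStarAlgebrasClean
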